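import Mathlib
import Pool.Agent.Helper56.Koszul.Defs

/-! # MP_c7d84d_co, piece KZ-3: infinite linear resolutions from finite truncations -/

namespace Pool.Agent.Helper42.KZ

open Pool.Agent.Helper56.Koszul Matrix

universe u

variable {S : Type u} [CommRing S]

theorem mem_Ker {κ ι : Type} [Fintype κ] (v : κ → ι → S) (f : κ → S) :
    f ∈ Ker v ↔ ∀ i, ∑ j, f j * v j i = 0 := Iff.rfl

theorem mem_Ker' {κ ι : Type} [Fintype κ] (v : κ → ι → S) (f : κ → S) :
    f ∈ Ker v ↔ ∑ j, f j • v j = 0 := by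
  rw [mem_Ker, funext_iff]
  simp only [Finset.sum_apply, Pi.smul_apply, smul_eq_mul, Pi.zero_apply]

/-- the first level of `Lin` -/
theorem Lin.zero {S1 : AddSubgroup S} {n : ℕ} {ι : Type} {N : Submodule S (ι → S)}
    (h : Lin S1 n ι N) : ∃ (κ : Type) (_ : Fintype κ) (v : κ → ι → S),
      (∀ j i, v j i ∈ S1) ∧ Submodule.span S (Set.range v) = N := by
  cases n with
  | zero => exact h
  | succ n =>
    obtain ⟨κ, hκ, v, h1, h2, -⟩ := h
    exact ⟨κ, hκ, v, h1, h2⟩

/-- transport along a linear map injective on `N` -/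
theorem Lin.transport' (S1 : AddSubgroup S) (n : ℕ) {ι ι' : Type} (N : Submodule S (ι → S))
    (N' : Submodule S (ι' → S)) (Θ : (ι → S) →ₗ[S] (ι' → S)) (h0 : ∀ f ∈ N, Θ f = 0 → f = 0)
    (h1 : ∀ f ∈ N, (∀ i, f i ∈ S1) → ∀ i, Θ f i ∈ S1) (h2 : N.map Θ = N')
    (h : Lin S1 n ι N) : Lin S1 n ι' N' := by
  have hspan : ∀ {κ : Type} (v : κ → ι → S), Submodule.span S (Set.range v) = N →
      Submodule.span S (Set.range fun j => Θ (v j)) = N' := by
    intro κ v hv
    rw [← h2, ← hv, Submodule.map_span, ← Set.range_comp]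
    rfl
  have hmem : ∀ {κ : Type} (v : κ → ι → S), Submodule.span S (Set.range v) = N →
      ∀ j, v j ∈ N := by
    intro κ v hv j
    rw [← hv]
    exact Submodule.subset_span ⟨j, rfl⟩
  cases n with
  | zero =>
    obtain ⟨κ, hκ, v, h3, h4⟩ := h
    exact ⟨κ, hκ, fun j => Θ (v j), fun j i => h1 _ (hmem v h4 j) (h3 j) i, hspan v h4⟩
  | succ n =>
    obtain ⟨κ, hκ, v, h3, h4, h5⟩ := h
    refine ⟨κ, hκ, fun j => Θ (v j), fun j i => h1 _ (hmem v h4 j) (h3 j) i, hspan v h4, ?_⟩
    have h6 : Ker (fun j => Θ (v j)) = Ker v := by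
      ext f
      rw [mem_Ker', mem_Ker']
      have e3 : ∑ j, f j • Θ (v j) = Θ (∑ j, f j • v j) := by
        rw [map_sum]; exact Finset.sum_congr rfl fun j _ => (map_smul _ _ _).symm
      rw [e3]
      constructor
      · exact h0 _ (Submodule.sum_mem _ fun j _ => N.smul_mem _ (hmem v h4 j))
      · intro h; rw [h, map_zero]
    rw [h6]
    exact h5

/-- elements of a submodule spanned by vectors with entries in `S1` have entries killed by
`p0` -/
theorem p0_eq_zero (D : GrData S) {n : ℕ} {ι : Type} {N : Submodule S (ι → S)}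
    (h : Lin D.S1 n ι N) {f : ι → S} (hf : f ∈ N) (i : ι) : D.p0 (f i) = 0 := by
  obtain ⟨κ, hκ, v, hv, rfl⟩ := Lin.zero h
  obtain ⟨c, rfl⟩ := (Submodule.mem_span_range_iff_exists_fun S).1 hf
  rw [Finset.sum_apply, map_sum]
  refine Finset.sum_eq_zero fun j _ => ?_
  rw [Pi.smul_apply, smul_eq_mul, mul_comm]
  exact D.p0_mul _ (hv j i) _

/-- expansion with coefficients of degree zero -/
theorem exists_p0 (D : GrData S) {ι κ κ' : Type} [Fintype κ'] (v : κ → ι → S)
    (v' : κ' → ι → S) (hv : ∀ j i, v j i ∈ D.S1) (hv' : ∀ j i, v' j i ∈ D.S1)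
    (h : ∀ j, v j ∈ Submodule.span S (Set.range v')) :
    ∃ a : κ → κ' → S, ∀ j, v j = ∑ i, D.p0 (a j i) • v' i := by
  have h1 : ∀ j, ∃ c : κ' → S, ∑ i, c i • v' i = v j := fun j =>
    (Submodule.mem_span_range_iff_exists_fun S).1 (h j)
  choose a ha using h1
  refine ⟨a, fun j => ?_⟩
  funext l
  have h2 := congrArg D.p1 (congrFun (ha j) l)
  rw [D.p1_of_mem _ (hv j l), Finset.sum_apply, map_sum] at h2
  rw [← h2, Finset.sum_apply]
  refine Finset.sum_congr rfl fun i _ => ?_
  rw [Pi.smul_apply, smul_eq_mul, mul_comm, D.p1_mul _ (hv' i l), Pi.smul_apply, smul_eq_mul,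
    mul_comm]

/-- the two coefficient families are inverse to each other -/
theorem coeff_inv (D : GrData S) {ι κ κ' : Type} [Fintype κ] [DecidableEq κ] [Fintype κ']
    (v : κ → ι → S) (v' : κ' → ι → S) (hK : ∀ f ∈ Ker v, ∀ j, D.p0 (f j) = 0)
    (a : κ → κ' → S) (b : κ' → κ → S) (ha : ∀ j, v j = ∑ i, D.p0 (a j i) • v' i)
    (hb : ∀ i, v' i = ∑ j, D.p0 (b i j) • v j) (j k : κ) :
    ∑ i, D.p0 (a j i) * D.p0 (b i k) = if j = k then 1 else 0 := by
  have h1 : (fun k => ∑ i, D.p0 (a j i) * D.p0 (b i k) - if j = k then 1 else 0) ∈ Ker v := by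
    rw [mem_Ker']
    simp only [sub_smul, Finset.sum_sub_distrib, ite_smul, one_smul, zero_smul,
      Finset.sum_ite_eq, Finset.mem_univ, if_true]
    rw [sub_eq_zero]
    conv_rhs => rw [ha j]
    simp_rw [Finset.sum_smul]
    rw [Finset.sum_comm]
    refine Finset.sum_congr rfl fun i _ => ?_
    conv_rhs => rw [hb i, Finset.smul_sum]
    refine Finset.sum_congr rfl fun l _ => ?_
    rw [mul_smul]
  have h2 := hK _ h1 k
  have h3 : D.p0 (∑ i, D.p0 (a j i) * D.p0 (b i k) - if j = k then 1 else 0) =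
      ∑ i, D.p0 (a j i) * D.p0 (b i k) - if j = k then 1 else 0 := by
    rw [map_sub, map_sum]
    congr 1
    · exact Finset.sum_congr rfl fun i _ => D.p0_p0_mul _ _
    · split_ifs
      · exact D.p0_one
      · exact map_zero _
  rw [h3] at h2
  exact sub_eq_zero.1 h2

/-- independence of the choice of generators with entries in `S1` -/
theorem Lin.ker_of_ker (D : GrData S) {n n' : ℕ} {ι κ κ' : Type} [Fintype κ] [Fintype κ']
    (v : κ → ι → S) (v' : κ' → ι → S) (hv : ∀ j i, v j i ∈ D.S1) (hv' : ∀ j i, v' j i ∈ D.S1)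
    (hs : Submodule.span S (Set.range v) = Submodule.span S (Set.range v'))
    (h0 : Lin D.S1 n' κ (Ker v)) (h : Lin D.S1 n κ' (Ker v')) : Lin D.S1 n κ (Ker v) := by
  classical
  obtain ⟨a, ha⟩ := exists_p0 D v v' hv hv' fun j => by
    rw [← hs]; exact Submodule.subset_span ⟨j, rfl⟩
  obtain ⟨b, hb⟩ := exists_p0 D v' v hv' hv fun j => by
    rw [hs]; exact Submodule.subset_span ⟨j, rfl⟩
  have hab := coeff_inv D v v' (fun f hf j => p0_eq_zero D h0 hf j) a b ha hb
  have hba := coeff_inv D v' v (fun f hf j => p0_eq_zero D h hf j) b a hb ha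
  let Θ : (κ' → S) →ₗ[S] (κ → S) :=
    { toFun := fun f j => ∑ i, f i * D.p0 (b i j)
      map_add' := fun f g => by
        funext j; simp only [Pi.add_apply, add_mul, Finset.sum_add_distrib]
      map_smul' := fun c f => by
        funext j
        simp only [Pi.smul_apply, smul_eq_mul, RingHom.id_apply, mul_assoc, Finset.mul_sum] }
  have hΘ : ∀ f j, Θ f j = ∑ i, f i * D.p0 (b i j) := fun f j => rfl
  have hinv : ∀ (f : κ' → S) (k : κ'), ∑ j, Θ f j * D.p0 (a j k) = f k := by
    intro f k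
    simp only [hΘ, Finset.sum_mul]
    rw [Finset.sum_comm]
    have h1 : ∀ i, ∑ j, f i * D.p0 (b i j) * D.p0 (a j k) = f i * if i = k then 1 else 0 := by
      intro i
      rw [← hba i k, Finset.mul_sum]
      exact Finset.sum_congr rfl fun j _ => mul_assoc _ _ _
    rw [Finset.sum_congr rfl fun i _ => h1 i]
    simp
  refine Lin.transport' D.S1 n (Ker v') (Ker v) Θ ?_ ?_ ?_ h
  · intro f _ hf
    funext k
    rw [← hinv f k, hf]
    simp
  · intro f _ hf j
    rw [hΘ]
    refine D.S1.sum_mem fun i _ => ?_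
    rw [mul_comm]
    exact D.p0_mul_mem _ _ (hf i)
  · ext g
    rw [Submodule.mem_map]
    constructor
    · rintro ⟨f, hf, rfl⟩
      rw [mem_Ker'] at hf ⊢
      rw [← hf]
      have h1 : ∀ i, f i • v' i = ∑ j, (f i * D.p0 (b i j)) • v j := by
        intro i
        conv_lhs => rw [hb i, Finset.smul_sum]
        exact Finset.sum_congr rfl fun j _ => (mul_smul _ _ _).symm
      rw [Finset.sum_congr rfl fun i _ => h1 i, Finset.sum_comm]
      refine Finset.sum_congr rfl fun j _ => ?_
      rw [hΘ, Finset.sum_smul]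
    · intro hg
      refine ⟨fun i => ∑ j, g j * D.p0 (a j i), ?_, ?_⟩
      · rw [mem_Ker'] at hg ⊢
        rw [← hg]
        have h1 : ∀ j, g j • v j = ∑ i, (g j * D.p0 (a j i)) • v' i := by
          intro j
          conv_lhs => rw [ha j, Finset.smul_sum]
          exact Finset.sum_congr rfl fun j _ => (mul_smul _ _ _).symm
        rw [Finset.sum_congr rfl fun i _ => h1 i, Finset.sum_comm]
        refine Finset.sum_congr rfl fun j _ => ?_
        rw [Finset.sum_smul]
      · funext k
        rw [hΘ]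
        simp only [Finset.sum_mul]
        rw [Finset.sum_comm]
        have h1 : ∀ j, ∑ i, g j * D.p0 (a j i) * D.p0 (b i k) =
            g j * if j = k then 1 else 0 := by
          intro j
          rw [← hab j k, Finset.mul_sum]
          exact Finset.sum_congr rfl fun j _ => mul_assoc _ _ _
        rw [Finset.sum_congr rfl fun i _ => h1 i]
        simp

/-- reindexing -/
theorem Lin.reindex (D : GrData S) {n : ℕ} {ι κ κ' : Type} [Fintype κ] [Fintype κ']
    (e : κ' ≃ κ) (v : κ → ι → S) (h : Lin D.S1 n κ (Ker v)) :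
    Lin D.S1 n κ' (Ker fun j => v (e j)) := by
  have h1 : ∀ f : κ → S, ∑ j, f (e j) • v (e j) = ∑ j, f j • v j := fun f =>
    Equiv.sum_comp e fun j => f j • v j
  refine Lin.transport' D.S1 n (Ker v) _ (LinearMap.funLeft S S e) ?_ ?_ ?_ h
  · intro f _ hf
    funext k
    have := congrFun hf (e.symm k)
    rwa [LinearMap.funLeft_apply, Equiv.apply_symm_apply] at this
  · intro f _ hf i
    rw [LinearMap.funLeft_apply]
    exact hf _
  · ext g
    rw [Submodule.mem_map]
    constructor
    · rintro ⟨f, hf, rfl⟩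
      rw [mem_Ker'] at hf ⊢
      rw [← hf, ← h1 f]
      rfl
    · intro hg
      refine ⟨fun j => g (e.symm j), ?_, ?_⟩
      · rw [mem_Ker'] at hg ⊢
        rw [← h1, ← hg]
        simp only [Equiv.symm_apply_apply]
      · funext j
        rw [LinearMap.funLeft_apply, Equiv.symm_apply_apply]

/-- one set of generators works for all lengths -/
theorem exists_next (D : GrData S) {m : ℕ} (N : Submodule S (Fin m → S))
    (h : ∀ n, Lin D.S1 n (Fin m) N) : ∃ (r : ℕ) (v : Fin r → Fin m → S),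
      (∀ j i, v j i ∈ D.S1) ∧ Submodule.span S (Set.range v) = N ∧
      ∀ n, Lin D.S1 n (Fin r) (Ker v) := by
  obtain ⟨κ, hκ, v, h1, h2, h3⟩ := h 1
  refine ⟨Fintype.card κ, fun j => v ((Fintype.equivFin κ).symm j), fun j i => h1 _ _, ?_,
    fun n => ?_⟩
  · rw [← h2]
    congr 1
    exact (Fintype.equivFin κ).symm.surjective.range_comp v
  · refine Lin.reindex D _ v ?_
    obtain ⟨κ', hκ', v', h1', h2', h3'⟩ := h (n + 1)
    exact Lin.ker_of_ker D v v' h1 h1' (h2.trans h2'.symm) h3 h3'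

/-- states of the recursion -/
structure St (D : GrData S) where
  m : ℕ
  N : Submodule S (Fin m → S)
  h : ∀ n, Lin D.S1 n (Fin m) N

/-- generators of a state -/
noncomputable def St.r {D : GrData S} (s : St D) : ℕ := (exists_next D s.N s.h).choose

/-- generators of a state -/
noncomputable def St.v {D : GrData S} (s : St D) : Fin s.r → Fin s.m → S :=
  (exists_next D s.N s.h).choose_spec.choose

theorem St.spec {D : GrData S} (s : St D) : (∀ j i, s.v j i ∈ D.S1) ∧
    Submodule.span S (Set.range s.v) = s.N ∧ ∀ n, Lin D.S1 n (Fin s.r) (Ker s.v) :=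
  (exists_next D s.N s.h).choose_spec.choose_spec

/-- the next state -/
noncomputable def St.next {D : GrData S} (s : St D) : St D := ⟨s.r, Ker s.v, s.spec.2.2⟩

/-- the sequence of states -/
noncomputable def St.seq {D : GrData S} (s0 : St D) : ℕ → St D
  | 0 => s0
  | n + 1 => (St.seq s0 n).next

theorem St.range {D : GrData S} (s : St D) (x : Fin s.m → S) :
    (∃ y, (Matrix.of fun p q => s.v q p).mulVec y = x) ↔ x ∈ s.N := by
  rw [← s.spec.2.1, Submodule.mem_span_range_iff_exists_fun]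
  refine exists_congr fun y => ?_
  have : (Matrix.of fun p q => s.v q p).mulVec y = ∑ i, y i • s.v i := by
    funext p
    simp only [Matrix.mulVec, dotProduct, Matrix.of_apply, Finset.sum_apply, Pi.smul_apply,
      smul_eq_mul]
    exact Finset.sum_congr rfl fun _ _ => mul_comm _ _
  rw [this]

theorem mem_iff_const (N : Submodule S (Fin 1 → S)) (x : Fin 1 → S) :
    x ∈ N ↔ ∀ p, (fun _ => x p) ∈ N := by
  have hx : ∀ p : Fin 1, (fun _ : Fin 1 => x p) = x := by
    intro p; funext q; exact congrArg x (Subsingleton.elim _ _)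
  constructor
  · intro h p
    rw [hx p]
    exact h
  · intro h
    have h2 := h 0
    rwa [hx 0] at h2

theorem St.mem_Ker_iff {D : GrData S} (s : St D) (x : Fin s.r → S) :
    x ∈ Ker s.v ↔ (Matrix.of fun p q => s.v q p).mulVec x = 0 := by
  rw [mem_Ker, funext_iff]
  refine forall_congr' fun p => ?_
  have : (Matrix.of fun p q => s.v q p).mulVec x p = ∑ j, x j * s.v j p := by
    simp only [Matrix.mulVec, dotProduct, Matrix.of_apply]
    exact Finset.sum_congr rfl fun _ _ => mul_comm _ _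
  rw [this]
  rfl

/-- KZ-3 (a module all of whose finite linear truncations exist has an infinite linear
resolution). -/
theorem exists_resolution {S : Type u} [CommRing S] (D : GrData S)
    (N : Submodule S (Fin 1 → S)) (h : ∀ n, Lin D.S1 n (Fin 1) N) :
    ∃ (β : ℕ → ℕ) (d : ∀ i, Matrix (Fin (β i)) (Fin (β (i + 1))) S),
      β 0 = 1 ∧ (∀ i p q, d i p q ∈ D.S1) ∧
      (∀ x : Fin (β 0) → S, (∃ y, (d 0).mulVec y = x) ↔ ∀ p, (fun _ => x p) ∈ N) ∧
      (∀ i (x : Fin (β (i + 1)) → S),
        (∃ y, (d (i + 1)).mulVec y = x) ↔ (d i).mulVec x = 0) := by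
  let s0 : St D := ⟨1, N, h⟩
  exact ⟨fun i => (St.seq s0 i).m, fun i => Matrix.of fun p q => (St.seq s0 i).v q p, rfl,
    fun i p q => (St.seq s0 i).spec.1 q p, fun x => (St.range s0 x).trans (mem_iff_const N x),
    fun i x => (St.range (St.seq s0 (i + 1)) x).trans (St.mem_Ker_iff (St.seq s0 i) x)⟩

end Pool.Agent.Helper42.KZ
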